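import Pool.Agent.Y472.L.Defs

/-!
# Project TA: elementary facts about the parameters (S_BFJ)
-/

set_option autoImplicit false

namespace Pool.Agent.Y970.TA

open Finset Filter Topology Pool.Agent.Y472.L Pool.Agent.W711.HT Pool.Agent.Y472.K
open scoped Real Nat

theorem bfj : Pool.Agent.Y472.L.S_BFJ := by
  intro hpar n hn E hz
  obtain ⟨hg1, hg2, hC1, hC2, hy, hcosh, hb1, hb2, hcos, hdn, -, -⟩ := hpar n hn
  set b := bs n with hb
  set y := yn n with hydef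
  have hpi := Real.pi_pos
  -- the number z and its inverse
  have hzE : Complex.exp (pI * (b : ℂ)) ∈ E := hz
  have hz0 : Complex.exp (pI * (b : ℂ)) ≠ 0 := Complex.exp_ne_zero _
  have hziE : (Complex.exp (pI * (b : ℂ)))⁻¹ ∈ E := E.inv_mem hzE
  have h2E : (2 : ℂ) ∈ E := by
    have : ((2 : ℕ) : ℂ) ∈ E := natCast_mem E 2
    simpa using this
  -- the cosine
  have hcosz : ((Real.cos (2 * π * b) : ℝ) : ℂ) =
      (Complex.exp (pI * (b : ℂ)) + (Complex.exp (pI * (b : ℂ)))⁻¹) / 2 := by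
    rw [Complex.ofReal_cos, Complex.cos, ← Complex.exp_neg]
    unfold pI
    push_cast
    congr 2
    · congr 1
      ring
    · congr 1
      ring
  have hcosE : ((Real.cos (2 * π * b) : ℝ) : ℂ) ∈ E := by
    rw [hcosz]
    exact E.div_mem (E.add_mem hzE hziE) h2E
  have hgaE : ((ga n : ℝ) : ℂ) ∈ E := by
    have e : ((ga n : ℝ) : ℂ) = 1 / 2 - ((Real.cos (2 * π * b) : ℝ) : ℂ) := by
      rw [hcos]
      push_cast
      ring
    rw [e]
    exact E.sub_mem (E.div_mem E.one_mem h2E) hcosE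
  have hChE : ((Ch n : ℝ) : ℂ) ∈ E := by
    have e : ((Ch n : ℝ) : ℂ) = 2 + ((ga n : ℝ) : ℂ) - 2 * ((ga n : ℝ) : ℂ) ^ 2 := by
      unfold Ch
      push_cast
      ring
    rw [e]
    exact E.sub_mem (E.add_mem h2E hgaE) (E.mul_mem h2E (E.pow_mem hgaE 2))
  have hchE : ((Real.cosh y : ℝ) : ℂ) ∈ E := by rw [hcosh]; exact hChE
  -- the sine
  have hs : 0 < Real.sin (2 * π * b) := by
    apply Real.sin_pos_of_pos_of_lt_pi
    · have : 0 < b := by linarith
      positivity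
    · nlinarith
  have hexp1 : Complex.exp (pI * ((1 - b : ℝ) : ℂ)) = (Complex.exp (pI * (b : ℂ)))⁻¹ := by
    rw [← Complex.exp_neg]
    have e : pI * ((1 - b : ℝ) : ℂ) = -(pI * (b : ℂ)) + 2 * π * Complex.I := by
      unfold pI
      push_cast
      ring
    rw [e, Complex.exp_add, Complex.exp_two_pi_mul_I, mul_one]
  have hcI : Complex.cos ((y : ℂ) * Complex.I) = ((Real.cosh y : ℝ) : ℂ) := by
    rw [Complex.cos_mul_I, Complex.ofReal_cosh]
  have hdnb : dn ((b : ℝ) : ℂ) (y * Complex.I) = ((4 * Real.sin (2 * π * b) ^ 2 : ℝ) : ℂ) := by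
    unfold dn
    rw [hcI, ← hdn, hcosh]
    push_cast
    ring
  have hdnb' : dn ((1 - b : ℝ) : ℂ) (y * Complex.I) = dn ((b : ℝ) : ℂ) (y * Complex.I) := by
    unfold dn
    have e : Complex.cos (2 * π * ((1 - b : ℝ) : ℂ)) = Complex.cos (2 * π * ((b : ℝ) : ℂ)) := by
      have e1 : 2 * π * ((1 - b : ℝ) : ℂ) = 2 * π - 2 * π * ((b : ℝ) : ℂ) := by
        push_cast
        ring
      rw [e1, Complex.cos_sub, Complex.cos_two_pi, Complex.sin_two_pi]
      ring
    rw [e]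
  have hpos : ((4 * Real.sin (2 * π * b) ^ 2 : ℝ) : ℂ) ≠ 0 := by
    have : (0 : ℝ) < 4 * Real.sin (2 * π * b) ^ 2 := by positivity
    exact_mod_cast this.ne'
  refine ⟨?_, ?_, hchE, ?_, hzE, ?_, ?_, ?_, ?_, ?_, hs⟩
  · unfold ks
    have h : Real.sinh y ≠ 0 := (Real.sinh_pos_iff.2 hy).ne'
    have h' : ((Real.sinh y : ℝ) : ℂ) ≠ 0 := by exact_mod_cast h
    exact mul_ne_zero Complex.I_ne_zero h'
  · unfold ks
    have e : (Complex.I * ((Real.sinh y : ℝ) : ℂ)) ^ 2 = 1 - ((Real.cosh y : ℝ) : ℂ) ^ 2 := by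
      have h := Real.cosh_sq y
      have h' : ((Real.cosh y : ℝ) : ℂ) ^ 2 = ((Real.sinh y : ℝ) : ℂ) ^ 2 + 1 := by
        exact_mod_cast h
      rw [mul_pow, Complex.I_sq, h']
      ring
    rw [e]
    exact E.sub_mem E.one_mem (E.pow_mem hchE 2)
  · rw [hexp1]
    exact hziE
  · have e : Complex.exp (pI * (((1 - b : ℝ) : ℂ) - ((b : ℝ) : ℂ))) =
        (Complex.exp (pI * (b : ℂ)))⁻¹ * (Complex.exp (pI * (b : ℂ)))⁻¹ := by
      rw [mul_sub, sub_eq_add_neg, Complex.exp_add, hexp1, Complex.exp_neg]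
    rw [e]
    exact E.mul_mem hziE hziE
  · have e : Complex.sin (π * (((1 - b : ℝ) : ℂ) - ((b : ℝ) : ℂ))) =
        ((Real.sin (2 * π * b) : ℝ) : ℂ) := by
      have e1 : (π : ℂ) * (((1 - b : ℝ) : ℂ) - ((b : ℝ) : ℂ)) = π - ((2 * π * b : ℝ) : ℂ) := by
        push_cast
        ring
      rw [e1, Complex.sin_pi_sub, Complex.ofReal_sin]
    rw [e]
    exact_mod_cast hs.ne'
  · rw [hdnb', hdnb]
    exact hpos
  · rw [hdnb]
    exact hpos
  · have e : ((2 * Real.sin (2 * π * b) : ℝ) : ℂ) ^ 2 =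
        2 * 2 * (1 - ((Real.cos (2 * π * b) : ℝ) : ℂ) ^ 2) := by
      have h := Real.sin_sq_add_cos_sq (2 * π * b)
      have h' : ((Real.sin (2 * π * b) : ℝ) : ℂ) ^ 2 +
          ((Real.cos (2 * π * b) : ℝ) : ℂ) ^ 2 = 1 := by exact_mod_cast h
      rw [Complex.ofReal_mul, mul_pow]
      rw [← h']
      push_cast
      ring
    rw [e]
    exact E.mul_mem (E.mul_mem h2E h2E) (E.sub_mem E.one_mem (E.pow_mem hcosE 2))

end Pool.Agent.Y970.TA
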