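import Pool.Agent.Y472.L.Defs

/-!
# Project TA: expansion of the logarithm of the summand, with the coefficients (S_LGJ)

The expansion is the one of `Pool.Agent.Y363.TKX.Cmb` (by helper363), with explicit coefficient
functions.
-/

set_option autoImplicit false

namespace Pool.Agent.Y970.TA

open Finset Filter Topology MeasureTheory Pool.Agent.W711.HT Pool.Agent.Y472.K Pool.Agent.Y472.L
open Pool.Agent.Y363.TKX (an_coord an_sd an_q sin_axis)
open scoped Real Nat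

/-! ### Products -/

section gen

variable {ι : Type} [Fintype ι] {ws : ι → ℝ} {K : ℕ}

theorem lg_mul {Ψ₁ Ψ₂ : (ι → ℂ) × ℂ → ℂ} {T₁ T₂ : ℕ → (ι → ℕ) → ℝ → ℂ}
    {τ₁ τ₂ : ℕ → (ι → ℂ) × ℂ → ℂ}
    (h₁ : LG Ψ₁ ws K T₁ τ₁) (h₂ : LG Ψ₂ ws K T₂ τ₂) :
    LG (fun w => Ψ₁ w + Ψ₂ w) ws K (fun N k x => T₁ N k x * T₂ N k x)
      (fun l w => τ₁ l w + τ₂ l w) := by
  obtain ⟨r₁, C₁, hr₁, H₁⟩ := h₁
  obtain ⟨r₂, C₂, hr₂, H₂⟩ := h₂
  refine ⟨min r₁ r₂, C₁ + C₂, lt_min hr₁ hr₂, ?_⟩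
  filter_upwards [H₁, H₂] with N h1 h2 k x hk hx
  obtain ⟨e₁, he₁, t₁⟩ := h1 k x (fun i => (hk i).trans_le (min_le_left _ _))
    (hx.trans_le (min_le_left _ _))
  obtain ⟨e₂, he₂, t₂⟩ := h2 k x (fun i => (hk i).trans_le (min_le_right _ _))
    (hx.trans_le (min_le_right _ _))
  refine ⟨e₁ + e₂, ?_, ?_⟩
  · refine (norm_add_le _ _).trans ?_
    rw [add_div]
    exact add_le_add he₁ he₂
  · rw [t₁, t₂, ← Complex.exp_add]
    congr 1
    simp_rw [add_div]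
    rw [Finset.sum_add_distrib]
    ring

theorem lg_one : LG (fun _ => 0) ws K (fun _ _ _ => (1 : ℂ)) (fun _ _ => 0) := by
  refine ⟨1, 0, one_pos, ?_⟩
  filter_upwards with N k x _ _
  refine ⟨0, by simp, ?_⟩
  simp

theorem lg_prod {α : Type} (s : Finset α) (Ψ : α → (ι → ℂ) × ℂ → ℂ)
    (T : α → ℕ → (ι → ℕ) → ℝ → ℂ) (τ : α → ℕ → (ι → ℂ) × ℂ → ℂ)
    (h : ∀ a ∈ s, LG (Ψ a) ws K (T a) (τ a)) :
    LG (fun w => ∑ a ∈ s, Ψ a w) ws K (fun N k x => ∏ a ∈ s, T a N k x)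
      (fun l w => ∑ a ∈ s, τ a l w) := by
  classical
  induction s using Finset.induction_on with
  | empty => simpa using lg_one
  | insert a s ha ih =>
    have h1 := lg_mul (h a (mem_insert_self _ _)) (ih fun b hb => h b (mem_insert_of_mem hb))
    simp only [Finset.sum_insert ha, Finset.prod_insert ha]
    exact h1

theorem lg_congr {Ψ Ψ' : (ι → ℂ) × ℂ → ℂ} {T T' : ℕ → (ι → ℕ) → ℝ → ℂ}
    {τ : ℕ → (ι → ℂ) × ℂ → ℂ}
    (h : LG Ψ ws K T τ) (hΨ : ∀ w, Ψ w = Ψ' w)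
    (hT : ∀ᶠ N : ℕ in atTop, ∀ k x, T N k x = T' N k x) : LG Ψ' ws K T' τ := by
  obtain ⟨r, C, hr, H⟩ := h
  refine ⟨r, C, hr, ?_⟩
  filter_upwards [H, hT] with N h1 h2 k x hk hx
  obtain ⟨e, he, t⟩ := h1 k x hk hx
  exact ⟨e, he, by rw [← h2, t, hΨ]⟩

theorem lg_axis {f L : ℂ → ℂ} (hK : 1 ≤ K)
    {r₀ : ℝ} (hr₀ : 0 < r₀) (hf : ∀ x : ℝ, |x| < r₀ → f x = Complex.exp (L x)) :
    LG (fun _ => 0) ws K (fun _ _ x => f x) (fun l w => if l = 0 then L w.2 else 0) := by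
  refine ⟨r₀, 0, hr₀, ?_⟩
  filter_upwards with N k x _ hx
  refine ⟨0, by simp, ?_⟩
  rw [hf x hx]
  congr 1
  rw [Finset.sum_eq_single_of_mem 0 (mem_range.2 hK)]
  · simp [cst]
  · intro l _ hl
    simp [hl]

theorem lg_sd {Lx : ℂ → ℂ} {σ : ℕ → ℂ → ℂ}
    (h : ∀ δ₀ : ℝ, 0 < δ₀ → δ₀ < 1 / 2 → ∀ K : ℕ, ∃ C : ℝ, ∀ᶠ N : ℕ in atTop, ∀ m : ℕ,
      δ₀ * N ≤ m → (m : ℝ) ≤ (1 - δ₀) * N → ∃ e : ℂ, ‖e‖ ≤ C / (N : ℝ) ^ K ∧
        ((√(N : ℝ) : ℝ) : ℂ) / (Sd N m : ℂ) =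
          Complex.exp (N * Lx ((m : ℂ) / N) + ∑ k ∈ range K, σ k ((m : ℂ) / N) / (N : ℂ) ^ k + e))
    (p q : ι) (h0 : 0 < ws p - ws q) (h1 : ws p - ws q < 1) :
    LG (fun w => Lx (w.1 p - w.1 q)) ws K
      (fun N k _ => ((√(N : ℝ) : ℝ) : ℂ) / (Sd N (k p - k q) : ℂ))
      (fun l w => σ l (w.1 p - w.1 q)) := by
  obtain ⟨δ₀, hδ₀⟩ : ∃ δ₀ : ℝ, δ₀ = min (ws p - ws q) (1 - (ws p - ws q)) / 2 := ⟨_, rfl⟩
  have d0 : 0 < δ₀ := by
    rw [hδ₀]
    exact half_pos (lt_min h0 (by linarith))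
  have d1 : 2 * δ₀ ≤ ws p - ws q := by
    rw [hδ₀]
    linarith [min_le_left (ws p - ws q) (1 - (ws p - ws q))]
  have d2 : 2 * δ₀ ≤ 1 - (ws p - ws q) := by
    rw [hδ₀]
    linarith [min_le_right (ws p - ws q) (1 - (ws p - ws q))]
  obtain ⟨C, hC⟩ := h δ₀ d0 (by linarith) K
  refine ⟨δ₀ / 2, C, half_pos d0, ?_⟩
  filter_upwards [hC, eventually_gt_atTop 0] with N hN hN0 k x hk _
  have hNr : (0 : ℝ) < N := by exact_mod_cast hN0
  have kp := abs_lt.1 (hk p)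
  have kq := abs_lt.1 (hk q)
  have hle : k q ≤ k p := by
    have h2 : (k q : ℝ) / N < (k p : ℝ) / N := by linarith [kp.1, kq.2]
    have h3 : (k q : ℝ) < k p := (div_lt_div_iff_of_pos_right hNr).1 h2
    exact_mod_cast h3.le
  have hm : ((k p - k q : ℕ) : ℝ) = (k p : ℝ) - k q := by
    rw [Nat.cast_sub hle]
  have hm2 : ((k p - k q : ℕ) : ℝ) / N = (k p : ℝ) / N - (k q : ℝ) / N := by
    rw [hm, sub_div]
  have hmN : ((k p - k q : ℕ) : ℝ) = ((k p : ℝ) / N - (k q : ℝ) / N) * N := by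
    rw [← hm2]
    field_simp
  obtain ⟨e, he, t⟩ := hN (k p - k q)
    (by rw [hmN]; exact mul_le_mul_of_nonneg_right (by linarith [kp.1, kq.2]) hNr.le)
    (by rw [hmN]; exact mul_le_mul_of_nonneg_right (by linarith [kp.2, kq.1]) hNr.le)
  refine ⟨e, he, ?_⟩
  have e1 : ((k p - k q : ℕ) : ℂ) / N = ((((k p : ℝ) / N : ℝ) : ℂ)) - ((((k q : ℝ) / N : ℝ) : ℂ)) := by
    rw [Nat.cast_sub hle]
    push_cast
    rw [sub_div]
  rw [t, e1]
  rfl

theorem lg_q {Θ : ℂ → ℂ → ℂ} {θ : ℕ → ℂ → ℂ → ℂ} {y r₀ : ℝ} (hr₀ : 0 < r₀)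
    (h : ∀ K : ℕ, ∃ C : ℝ, ∀ᶠ N : ℕ in atTop, ∀ j i : ℕ, j ≤ i → i ≤ N → ∀ x : ℝ, |x| < r₀ →
      ∃ e : ℂ, ‖e‖ ≤ C / (N : ℝ) ^ K ∧ Pq N j i (x + y * Complex.I) =
        Complex.exp (N * (Θ ((i : ℂ) / N) (x + y * Complex.I) -
            Θ ((j : ℂ) / N) (x + y * Complex.I)) +
          ∑ k ∈ range K, (θ k ((i : ℂ) / N) (x + y * Complex.I) -
            θ k ((j : ℂ) / N) (x + y * Complex.I)) / (N : ℂ) ^ k + e))
    (p q : ι) (hqp : ws q < ws p) (hp1 : ws p < 1) :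
    LG (fun w => Θ (w.1 p) (w.2 + y * Complex.I) - Θ (w.1 q) (w.2 + y * Complex.I)) ws K
      (fun N k x => Pq N (k q) (k p) (x + y * Complex.I))
      (fun l w => θ l (w.1 p) (w.2 + y * Complex.I) - θ l (w.1 q) (w.2 + y * Complex.I)) := by
  obtain ⟨C, hC⟩ := h K
  refine ⟨min r₀ (min ((ws p - ws q) / 2) (1 - ws p)), C,
    lt_min hr₀ (lt_min (by linarith) (by linarith)), ?_⟩
  filter_upwards [hC, eventually_gt_atTop 0] with N hN hN0 k x hk hx
  have hNr : (0 : ℝ) < N := by exact_mod_cast hN0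
  have hr1 : min r₀ (min ((ws p - ws q) / 2) (1 - ws p)) ≤ (ws p - ws q) / 2 :=
    (min_le_right _ _).trans (min_le_left _ _)
  have hr2 : min r₀ (min ((ws p - ws q) / 2) (1 - ws p)) ≤ 1 - ws p :=
    (min_le_right _ _).trans (min_le_right _ _)
  have kp := abs_lt.1 ((hk p).trans_le hr1)
  have kq := abs_lt.1 ((hk q).trans_le hr1)
  have kp' := abs_lt.1 ((hk p).trans_le hr2)
  have hle : k q ≤ k p := by
    have h2 : (k q : ℝ) / N < (k p : ℝ) / N := by linarith [kp.1, kq.2]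
    have h3 : (k q : ℝ) < k p := (div_lt_div_iff_of_pos_right hNr).1 h2
    exact_mod_cast h3.le
  have hleN : k p ≤ N := by
    have h2 : (k p : ℝ) / N < 1 := by linarith [kp'.2]
    rw [div_lt_one hNr] at h2
    exact_mod_cast h2.le
  obtain ⟨e, he, t⟩ := hN (k q) (k p) hle hleN x (hx.trans_le (min_le_left _ _))
  refine ⟨e, he, ?_⟩
  have e1 : ∀ i, ((k i : ℕ) : ℂ) / N = ((((k i : ℝ) / N : ℝ) : ℂ)) := by
    intro i
    push_cast
    rfl
  rw [t, e1, e1]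
  rfl

theorem lg_v (p q s : ι) :
    LG (fun w => Complex.I * π * ((w.1 p - w.1 q) * w.1 s)) ws K
      (fun N k _ => vN N ^ (((k p : ℤ) - k q) * k s)) (fun _ _ => 0) := by
  refine ⟨1, 0, one_pos, ?_⟩
  filter_upwards [eventually_gt_atTop 0] with N hN0 k x _ _
  have hNc : (N : ℂ) ≠ 0 := by exact_mod_cast hN0.ne'
  refine ⟨0, by simp, ?_⟩
  rw [vN, ← Complex.exp_int_mul]
  congr 1
  simp only [cst, zero_div, Finset.sum_const_zero, add_zero]
  push_cast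
  field_simp

theorem lg_k {y : ℝ} (hy : 0 < y) :
    LG (fun w => Complex.I * w.2 - y) ws K
      (fun N _ x => Pool.Agent.Y391.CB.kN N (x + y * Complex.I)) (fun _ _ => 0) := by
  have hto : Tendsto (fun N : ℕ => (N : ℝ) ^ K * Real.exp (-(N * y))) atTop (𝓝 0) := by
    have h1 := (Real.tendsto_pow_mul_exp_neg_atTop_nhds_zero K).comp
      (tendsto_natCast_atTop_atTop.atTop_mul_const hy : Tendsto (fun N : ℕ => (N : ℝ) * y) atTop atTop)
    have h2 := h1.const_mul ((1 / y) ^ K)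
    rw [mul_zero] at h2
    refine h2.congr fun N => ?_
    have e : (1 / y) ^ K * y ^ K = 1 := by
      rw [← mul_pow, one_div, inv_mul_cancel₀ hy.ne', one_pow]
    simp only [Function.comp]
    rw [mul_pow]
    linear_combination ((N : ℝ) ^ K * Real.exp (-(N * y))) * e
  refine ⟨1, 4, one_pos, ?_⟩
  filter_upwards [hto.eventually_le_const (by norm_num : (0 : ℝ) < 1 / 2),
    eventually_gt_atTop 0] with N hN hN0 k x _ _
  have hNr : (0 : ℝ) < N := by exact_mod_cast hN0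
  have hN1 : (1 : ℝ) ≤ (N : ℝ) ^ K := one_le_pow₀ (by exact_mod_cast hN0)
  obtain ⟨q, hq⟩ : ∃ q : ℂ, q = Complex.exp (Complex.I * N * (x + y * Complex.I)) := ⟨_, rfl⟩
  have hqn : ‖q‖ = Real.exp (-(N * y)) := by
    rw [hq, Complex.norm_exp]
    congr 1
    simp
  have hqh : ‖q‖ ≤ 1 / 2 := by
    rw [hqn]
    have := Real.exp_pos (-(N * y))
    nlinarith
  have hqK : ‖q‖ ≤ 1 / (N : ℝ) ^ K := by
    rw [hqn, le_div_iff₀ (by positivity)]
    linarith
  have hq1 : 1 - q ≠ 0 := by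
    intro h
    have : q = 1 := by linear_combination -h
    rw [this, norm_one] at hqh
    norm_num at hqh
  have hlog : ‖Complex.log (1 - q)‖ ≤ 2 * ‖q‖ := by
    have h1 := Complex.norm_log_one_add_half_le_self (z := -q) (by rwa [norm_neg])
    rw [norm_neg] at h1
    rw [sub_eq_add_neg]
    linarith [norm_nonneg q]
  refine ⟨-2 * Complex.log (1 - q), ?_, ?_⟩
  · rw [norm_mul, norm_neg]
    have : ‖(2 : ℂ)‖ = 2 := by norm_num
    rw [this]
    have h4 : 4 / (N : ℝ) ^ K = 4 * (1 / (N : ℝ) ^ K) := by ring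
    rw [h4]
    linarith
  · unfold Pool.Agent.Y391.CB.kN
    rw [← hq]
    simp only [cst, zero_div, Finset.sum_const_zero, add_zero]
    rw [Complex.exp_add]
    have e1 : Complex.exp ((N : ℂ) * (Complex.I * (x : ℂ) - y)) = q := by
      rw [hq]
      congr 1
      linear_combination (-(N : ℂ) * y) * Complex.I_sq
    have e2 : Complex.exp (-2 * Complex.log (1 - q)) = ((1 - q) ^ 2)⁻¹ := by
      have : -2 * Complex.log (1 - q) = -(Complex.log (1 - q) + Complex.log (1 - q)) := by ring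
      rw [this, Complex.exp_neg, Complex.exp_add, Complex.exp_log hq1]
      ring
    rw [e1, e2]
    rfl

theorem lg_sin (hK : 1 ≤ K) {y : ℝ} (hy : 0 < y) :
    LG (fun _ => 0) ws K (fun _ _ x => Complex.sin (x + y * Complex.I))
      (fun l w => if l = 0 then Complex.log (Complex.sin (w.2 + y * Complex.I)) else 0) := by
  have hc : Continuous fun z : ℂ => Complex.sin (z + y * Complex.I) := by fun_prop
  have hev : ∀ᶠ z : ℂ in 𝓝 0, Complex.sin (z + y * Complex.I) ≠ 0 := by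
    have h0 : Complex.sin (0 + y * Complex.I) ≠ 0 := by
      rw [zero_add]
      exact Complex.slitPlane_ne_zero (sin_axis hy)
    exact hc.continuousAt.eventually_ne h0
  obtain ⟨r₀, hr₀, hne⟩ := Metric.eventually_nhds_iff.1 hev
  refine lg_axis (f := fun z => Complex.sin (z + y * Complex.I))
    (L := fun z => Complex.log (Complex.sin (z + y * Complex.I))) hK hr₀ ?_
  intro x hx
  rw [Complex.exp_log]
  apply hne
  rw [dist_zero_right, Complex.norm_real, Real.norm_eq_abs]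
  exact hx

end gen

/-! ### Calculus -/

section cls

variable {ι : Type} [Fintype ι] {E : Subfield ℂ} {κ : ℂ} {p₀ : (ι → ℂ) × ℂ}

lemma jt_zero (hA : S_JTA) (hκ : κ ≠ 0) (m : ℤ) (k₀ : ℕ) :
    Jt E κ p₀ m k₀ fun _ => (0 : ℂ) := by
  obtain ⟨h1, h2, h3, h4, h5, h6, h7, h8, h9⟩ := hA ι E κ p₀ hκ
  have h := h7 0 m 0 _ (h1 0 E.zero_mem)
  have h' : Jt E κ p₀ m 0 fun _ => (0 : ℂ) := by simpa using h
  exact h8 m 0 k₀ _ (Nat.zero_le _) h'

lemma jt_add (hA : S_JTA) (hκ : κ ≠ 0) {m : ℤ} {k₀ : ℕ} {f g : (ι → ℂ) × ℂ → ℂ}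
    (hf : Jt E κ p₀ m k₀ f) (hg : Jt E κ p₀ m k₀ g) : Jt E κ p₀ m k₀ fun p => f p + g p :=
  (hA ι E κ p₀ hκ).2.2.1 m k₀ f g hf hg

lemma jt_smul (hA : S_JTA) (hκ : κ ≠ 0) {m : ℤ} {k₀ : ℕ} {f : (ι → ℂ) × ℂ → ℂ} {c : ℂ}
    (hc : c ∈ E) (hf : Jt E κ p₀ m k₀ f) : Jt E κ p₀ m k₀ fun p => c * f p :=
  (hA ι E κ p₀ hκ).2.2.2.1 m k₀ f c hc hf

lemma jt_pI (hA : S_JTA) (hκ : κ ≠ 0) {m : ℤ} {k₀ : ℕ} {f : (ι → ℂ) × ℂ → ℂ} (l : ℤ)
    (hf : Jt E κ p₀ m k₀ f) : Jt E κ p₀ (l + m) k₀ fun p => pI ^ l * f p :=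
  (hA ι E κ p₀ hκ).2.2.2.2.2.2.1 m l k₀ f hf

lemma jt_congr (hA : S_JTA) (hκ : κ ≠ 0) {m : ℤ} {k₀ : ℕ} {f g : (ι → ℂ) × ℂ → ℂ}
    (h : f =ᶠ[𝓝 p₀] g) (hf : Jt E κ p₀ m k₀ f) : Jt E κ p₀ m k₀ g :=
  (hA ι E κ p₀ hκ).2.2.2.2.2.2.2.2 m k₀ f g h hf

lemma jt_sub (hA : S_JTA) (hκ : κ ≠ 0) {m : ℤ} {k₀ : ℕ} {f g : (ι → ℂ) × ℂ → ℂ}
    (hf : Jt E κ p₀ m k₀ f) (hg : Jt E κ p₀ m k₀ g) : Jt E κ p₀ m k₀ fun p => f p - g p := by
  have h := jt_add hA hκ hf (jt_smul hA hκ (E.neg_mem E.one_mem) hg)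
  have e : (fun p => f p - g p) = fun p => f p + (-1 : ℂ) * g p := by
    funext p
    ring
  rw [e]
  exact h

lemma jt_sum (hA : S_JTA) (hκ : κ ≠ 0) {m : ℤ} {k₀ : ℕ} {α : Type} (s : Finset α)
    (f : α → (ι → ℂ) × ℂ → ℂ) (h : ∀ a ∈ s, Jt E κ p₀ m k₀ (f a)) :
    Jt E κ p₀ m k₀ fun p => ∑ a ∈ s, f a p := by
  classical
  induction s using Finset.induction_on with
  | empty => simpa using jt_zero hA hκ m k₀
  | insert a s ha ih =>
    have h1 := jt_add hA hκ (h a (mem_insert_self _ _))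
      (ih fun b hb => h b (mem_insert_of_mem hb))
    simp only [Finset.sum_insert ha]
    exact h1

lemma pI_ne' : pI ≠ 0 := by
  unfold pI
  have hpi : (π : ℂ) ≠ 0 := by exact_mod_cast Real.pi_ne_zero
  simp [hpi]

/-- the line through `p₀` tends to `p₀` -/
lemma tendsto_line (t : (ι → ℝ) × ℝ) :
    Tendsto (fun z : ℂ => p₀ + z • cst t) (𝓝 0) (𝓝 p₀) := by
  have hc : Continuous fun z : ℂ => p₀ + z • cst t := by fun_prop
  have h := hc.tendsto 0
  simpa using h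

end cls

/-! ### The factors -/

section fac

variable {ι : Type} [Fintype ι] {E : Subfield ℂ} {κ : ℂ} {p₀ : (ι → ℂ) × ℂ}

/-- the products of sines, `l = 0` -/
theorem jt_sd0 (hA : S_JTA) (hB : S_JTB) (hD : S_JTD) (hS : S_SRJ) (hκ : κ ≠ 0) {s : ℂ → ℂ}
    (a b : ι) (hE : Complex.exp (pI * (p₀.1 a - p₀.1 b)) ∈ E)
    (hs : Complex.sin (π * (p₀.1 a - p₀.1 b)) ≠ 0)
    (han : AnalyticAt ℂ s (p₀.1 a - p₀.1 b))
    (hd : ∀ᶠ w in 𝓝 (p₀.1 a - p₀.1 b), deriv s w = -(1 / 2) * ct1 0 w) :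
    Jt E κ p₀ 0 1 fun p => s (p.1 a - p.1 b) := by
  classical
  have hct := hS hA hB ι E κ p₀ a b hκ hE hs 0
  have h1 : Jt E κ p₀ 0 0 fun p => pI ^ (-1 : ℤ) * ct1 0 (p.1 a - p.1 b) := by
    have := jt_pI hA hκ (-1) hct
    simpa using this
  have h2E : (-(1 / 2) : ℂ) ∈ E := by
    have : (((-(1 / 2) : ℚ)) : ℂ) ∈ E := SubfieldClass.ratCast_mem E _
    simpa using this
  have h2 := jt_smul hA hκ h2E h1
  have hsub : Continuous fun p : (ι → ℂ) × ℂ => p.1 a - p.1 b := by fun_prop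
  refine (hD ι E κ p₀ hκ).1 0 _
    (fun i p => ((if i = a then 1 else 0) - (if i = b then 1 else 0) : ℂ) *
      (-(1 / 2) * (pI ^ (-1 : ℤ) * ct1 0 (p.1 a - p.1 b)))) (fun _ => 0) ?_ ?_
    (jt_zero hA hκ 0 0) ?_
  · refine AnalyticAt.comp (g := s) (f := fun w : (ι → ℂ) × ℂ => w.1 a - w.1 b) han
      ((an_coord a _).sub (an_coord b _))
  · intro i
    refine jt_smul hA hκ ?_ h2
    refine E.sub_mem ?_ ?_ <;> split_ifs <;> first | exact E.one_mem | exact E.zero_mem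
  · intro t
    have hev1 : ∀ᶠ z in 𝓝 (0 : ℂ), deriv s ((p₀ + z • cst t).1 a - (p₀ + z • cst t).1 b) =
        -(1 / 2) * ct1 0 ((p₀ + z • cst t).1 a - (p₀ + z • cst t).1 b) :=
      ((hsub.tendsto p₀).comp (tendsto_line t)).eventually hd
    have hev2 : ∀ᶠ z in 𝓝 (0 : ℂ),
        AnalyticAt ℂ s ((p₀ + z • cst t).1 a - (p₀ + z • cst t).1 b) :=
      ((hsub.tendsto p₀).comp (tendsto_line t)).eventually han.eventually_analyticAt
    filter_upwards [hev1, hev2] with z hz1 hz2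
    have hlin : HasDerivAt (fun z : ℂ => (p₀ + z • cst t).1 a - (p₀ + z • cst t).1 b)
        ((t.1 a : ℂ) - (t.1 b : ℂ)) z := by
      have e : (fun z : ℂ => (p₀ + z • cst t).1 a - (p₀ + z • cst t).1 b) =
          fun z : ℂ => (p₀.1 a - p₀.1 b) + z * ((t.1 a : ℂ) - (t.1 b : ℂ)) := by
        funext z
        simp [cst]
        ring
      rw [e]
      have := ((hasDerivAt_id z).mul_const ((t.1 a : ℂ) - (t.1 b : ℂ))).const_add
        (p₀.1 a - p₀.1 b)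
      simpa using this
    have hcomp := (hz2.differentiableAt.hasDerivAt).comp z hlin
    have hcomp' : deriv (fun z : ℂ => s ((p₀ + z • cst t).1 a - (p₀ + z • cst t).1 b)) z =
        deriv s ((p₀ + z • cst t).1 a - (p₀ + z • cst t).1 b) *
          ((t.1 a : ℂ) - (t.1 b : ℂ)) := hcomp.deriv
    refine hcomp'.trans ?_
    rw [hz1]
    have hsum : ∑ i, (pI * t.1 i) * (((if i = a then 1 else 0) - (if i = b then 1 else 0) : ℂ) *
        (-(1 / 2) * (pI ^ (-1 : ℤ) * ct1 0 ((p₀ + z • cst t).1 a - (p₀ + z • cst t).1 b)))) =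
        (pI * t.1 a - pI * t.1 b) *
        (-(1 / 2) * (pI ^ (-1 : ℤ) * ct1 0 ((p₀ + z • cst t).1 a - (p₀ + z • cst t).1 b))) := by
      rw [show (pI * (t.1 a : ℂ) - pI * (t.1 b : ℂ)) =
        ∑ i, (pI * t.1 i) * ((if i = a then 1 else 0) - (if i = b then 1 else 0) : ℂ) from ?_]
      · rw [Finset.sum_mul]
        refine Finset.sum_congr rfl fun i _ => ?_
        ring
      · simp [mul_sub, Finset.sum_sub_distrib]
    rw [hsum, zpow_neg_one]
    have := pI_ne'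
    field_simp
    ring

/-- the products of sines, `l ≥ 1` -/
theorem jt_sd1 (hA : S_JTA) (hB : S_JTB) (hS : S_SRJ) (hκ : κ ≠ 0) {s : ℂ → ℂ}
    (a b : ι) (hE : Complex.exp (pI * (p₀.1 a - p₀.1 b)) ∈ E)
    (hs : Complex.sin (π * (p₀.1 a - p₀.1 b)) ≠ 0) (k : ℕ) (c : ℚ)
    (hd : ∀ᶠ w in 𝓝 (p₀.1 a - p₀.1 b), s w = c * ct1 k w) :
    Jt E κ p₀ ((k : ℤ) + 1) 0 fun p => s (p.1 a - p.1 b) := by
  have hct := hS hA hB ι E κ p₀ a b hκ hE hs k
  have h2 := jt_smul hA hκ (SubfieldClass.ratCast_mem E c) hct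
  have hsub : Continuous fun p : (ι → ℂ) × ℂ => p.1 a - p.1 b := by fun_prop
  refine jt_congr hA hκ ?_ h2
  have := (hsub.tendsto p₀).eventually hd
  filter_upwards [this] with p hp
  rw [hp]

variable {y : ℝ}

/-- the functions of a variable and the variable of the axis, `l = 0` -/
theorem jt_q0 (hA : S_JTA) (hB : S_JTB) (hD : S_JTD) (hQ : S_QRJ) (hκ : κ ≠ 0)
    (hκy : κ = Complex.I * Real.sinh y) (hch : (Real.cosh y : ℂ) ∈ E) (hp2 : p₀.2 = 0)
    {s : ℂ → ℂ → ℂ} (a : ι) (hE : Complex.exp (pI * p₀.1 a) ∈ E)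
    (hdn : dn (p₀.1 a) (y * Complex.I) ≠ 0)
    (han : AnalyticAt ℂ (fun p : ℂ × ℂ => s p.1 p.2) (p₀.1 a, y * Complex.I))
    (hd : ∀ᶠ p in 𝓝 ((p₀.1 a, y * Complex.I) : ℂ × ℂ),
      ∀ a b : ℂ, deriv (fun u : ℂ => s (p.1 + u * a) (p.2 + u * b)) 0 =
      (1 / 2) * (a * (4 * π * Complex.sin (2 * π * p.1) / dn p.1 p.2) -
        b * (2 * Complex.sin p.2 / dn p.1 p.2))) :
    Jt E κ p₀ 0 1 fun p => s (p.1 a) (p.2 + y * Complex.I) := by
  classical
  obtain ⟨hq1, hq2, -, -⟩ := hQ hA hB ι E κ p₀ a y hκ hκy hch hp2 hE hdn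
  have h1 : Jt E κ p₀ 0 0 fun p => pI ^ (-1 : ℤ) * qt1 0 (p.1 a) (p.2 + y * Complex.I) := by
    have := jt_pI hA hκ (-1) (hq1 0)
    simpa using this
  have h2E : (1 / 2 : ℂ) ∈ E := by
    have : (((1 / 2 : ℚ)) : ℂ) ∈ E := SubfieldClass.ratCast_mem E _
    simpa using this
  have h2 := jt_smul hA hκ h2E h1
  have h3 := jt_smul hA hκ (E.neg_mem h2E) hq2
  have hmap : Continuous fun p : (ι → ℂ) × ℂ => ((p.1 a, p.2 + y * Complex.I) : ℂ × ℂ) := by
    fun_prop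
  have hmap0 : ((p₀.1 a, p₀.2 + y * Complex.I) : ℂ × ℂ) = (p₀.1 a, y * Complex.I) := by
    rw [hp2, zero_add]
  refine (hD ι E κ p₀ hκ).1 0 _
    (fun i p => (if i = a then 1 else 0 : ℂ) *
      ((1 / 2) * (pI ^ (-1 : ℤ) * qt1 0 (p.1 a) (p.2 + y * Complex.I))))
    (fun p => -(1 / 2) * (2 * Complex.sin (p.2 + y * Complex.I) /
      (κ * dn (p.1 a) (p.2 + y * Complex.I)))) ?_ ?_ h3 ?_
  · refine AnalyticAt.comp (g := fun p : ℂ × ℂ => s p.1 p.2)
      (f := fun w : (ι → ℂ) × ℂ => (w.1 a, w.2 + y * Complex.I)) ?_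
      ((an_coord a _).prod (analyticAt_snd.add analyticAt_const))
    rw [hmap0]
    exact han
  · intro i
    refine jt_smul hA hκ ?_ h2
    split_ifs
    · exact E.one_mem
    · exact E.zero_mem
  · intro t
    have hto : Tendsto (fun z : ℂ => (((p₀ + z • cst t).1 a,
        (p₀ + z • cst t).2 + y * Complex.I) : ℂ × ℂ)) (𝓝 0) (𝓝 (p₀.1 a, y * Complex.I)) := by
      have := (hmap.tendsto p₀).comp (tendsto_line t)
      rw [hmap0] at this
      exact this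
    filter_upwards [hto.eventually hd] with z hz
    have hz' := hz (t.1 a) t.2
    have hshift : deriv (fun u : ℂ => s ((p₀ + u • cst t).1 a)
        ((p₀ + u • cst t).2 + y * Complex.I)) z =
        deriv (fun u : ℂ => s ((p₀ + z • cst t).1 a + u * (t.1 a : ℂ))
          ((p₀ + z • cst t).2 + y * Complex.I + u * (t.2 : ℂ))) 0 := by
      have h := deriv_comp_const_add (f := fun u : ℂ => s ((p₀ + u • cst t).1 a)
        ((p₀ + u • cst t).2 + y * Complex.I)) z 0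
      rw [add_zero] at h
      rw [← h]
      congr 1
      funext u
      congr 1
      · simp [cst]
        ring
      · simp [cst]
        ring
    refine hshift.trans ?_
    refine hz'.trans ?_
    have hsum : ∑ i, (pI * t.1 i) * ((if i = a then 1 else 0 : ℂ) *
        ((1 / 2) * (pI ^ (-1 : ℤ) * qt1 0 ((p₀ + z • cst t).1 a)
          ((p₀ + z • cst t).2 + y * Complex.I)))) =
        (pI * t.1 a) * ((1 / 2) * (pI ^ (-1 : ℤ) * qt1 0 ((p₀ + z • cst t).1 a)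
          ((p₀ + z • cst t).2 + y * Complex.I))) := by
      rw [Finset.sum_eq_single a]
      · simp
      · intro i _ hi
        simp [hi]
      · intro h
        exact absurd (Finset.mem_univ a) h
    rw [hsum, zpow_neg_one]
    have e0 : qt1 0 ((p₀ + z • cst t).1 a) ((p₀ + z • cst t).2 + y * Complex.I) =
        4 * π * Complex.sin (2 * π * (p₀ + z • cst t).1 a) /
          dn ((p₀ + z • cst t).1 a) ((p₀ + z • cst t).2 + y * Complex.I) := by
      unfold qt1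
      rw [iteratedDeriv_zero]
    rw [e0]
    have := pI_ne'
    set W := (p₀ + z • cst t).1 a
    set X := (p₀ + z • cst t).2 + y * Complex.I
    have e1 : κ * (t.2 : ℂ) * (-(1 / 2) * (2 * Complex.sin X / (κ * dn W X))) =
        -(1 / 2) * ((t.2 : ℂ) * (2 * Complex.sin X / dn W X)) := by
      by_cases hd0 : dn W X = 0
      · simp [hd0]
      · field_simp
    have e2 : pI * (t.1 a : ℂ) * (1 / 2 * (pI⁻¹ * (4 * π * Complex.sin (2 * π * W) / dn W X))) =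
        1 / 2 * ((t.1 a : ℂ) * (4 * π * Complex.sin (2 * π * W) / dn W X)) := by
      have : pI * pI⁻¹ = 1 := mul_inv_cancel₀ this
      linear_combination (1 / 2 * (t.1 a : ℂ) * (4 * π * Complex.sin (2 * π * W) / dn W X)) * this
    rw [e1, e2]
    ring

/-- the functions of a variable and the variable of the axis, `l ≥ 1` -/
theorem jt_q1 (hA : S_JTA) (hB : S_JTB) (hQ : S_QRJ) (hκ : κ ≠ 0)
    (hκy : κ = Complex.I * Real.sinh y) (hch : (Real.cosh y : ℂ) ∈ E) (hp2 : p₀.2 = 0)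
    {s : ℂ → ℂ → ℂ} (a : ι) (hE : Complex.exp (pI * p₀.1 a) ∈ E)
    (hdn : dn (p₀.1 a) (y * Complex.I) ≠ 0) (k : ℕ) (c : ℚ)
    (hd : ∀ᶠ p in 𝓝 ((p₀.1 a, y * Complex.I) : ℂ × ℂ), s p.1 p.2 = c * qt1 k p.1 p.2) :
    Jt E κ p₀ ((k : ℤ) + 1) 0 fun p => s (p.1 a) (p.2 + y * Complex.I) := by
  obtain ⟨hq1, -, -, -⟩ := hQ hA hB ι E κ p₀ a y hκ hκy hch hp2 hE hdn
  have h2 := jt_smul hA hκ (SubfieldClass.ratCast_mem E c) (hq1 k)
  have hmap : Continuous fun p : (ι → ℂ) × ℂ => ((p.1 a, p.2 + y * Complex.I) : ℂ × ℂ) := by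
    fun_prop
  have hmap0 : ((p₀.1 a, p₀.2 + y * Complex.I) : ℂ × ℂ) = (p₀.1 a, y * Complex.I) := by
    rw [hp2, zero_add]
  have hto := hmap.tendsto p₀
  rw [hmap0] at hto
  refine jt_congr hA hκ ?_ h2
  filter_upwards [hto.eventually hd] with p hp
  exact hp.symm

/-- the logarithm of the sine -/
theorem jt_ls (hA : S_JTA) (hB : S_JTB) (hD : S_JTD) (hQ : S_QRJ) (hκ : κ ≠ 0)
    (hκy : κ = Complex.I * Real.sinh y) (hch : (Real.cosh y : ℂ) ∈ E) (hp2 : p₀.2 = 0)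
    (hy : 0 < y) (a : ι) (hE : Complex.exp (pI * p₀.1 a) ∈ E)
    (hdn : dn (p₀.1 a) (y * Complex.I) ≠ 0) :
    Jt E κ p₀ 0 1 fun p => Complex.log (Complex.sin (p.2 + y * Complex.I)) := by
  obtain ⟨-, -, -, hq4⟩ := hQ hA hB ι E κ p₀ a y hκ hκy hch hp2 hE hdn
  have hsl : Complex.sin (p₀.2 + y * Complex.I) ∈ Complex.slitPlane := by
    rw [hp2, zero_add]
    exact sin_axis hy
  refine (hD ι E κ p₀ hκ).1 0 _ (fun _ _ => 0)
    (fun p => Complex.cos (p.2 + y * Complex.I) / (κ * Complex.sin (p.2 + y * Complex.I)))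
    ?_ (fun _ => jt_zero hA hκ 0 0) hq4 ?_
  · have h1 : AnalyticAt ℂ (fun p : (ι → ℂ) × ℂ => p.2 + (y : ℂ) * Complex.I) p₀ :=
      analyticAt_snd.add analyticAt_const
    have h2 : AnalyticAt ℂ (fun p : (ι → ℂ) × ℂ => Complex.sin (p.2 + (y : ℂ) * Complex.I)) p₀ :=
      AnalyticAt.comp (g := Complex.sin) (f := fun p : (ι → ℂ) × ℂ => p.2 + (y : ℂ) * Complex.I)
        Complex.analyticAt_sin h1
    exact h2.clog hsl
  · intro t
    have hc : Continuous fun p : (ι → ℂ) × ℂ => Complex.sin (p.2 + y * Complex.I) := by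
      fun_prop
    have hev : ∀ᶠ z in 𝓝 (0 : ℂ),
        Complex.sin ((p₀ + z • cst t).2 + y * Complex.I) ∈ Complex.slitPlane :=
      ((hc.tendsto p₀).comp (tendsto_line t)).eventually
        (Complex.isOpen_slitPlane.mem_nhds hsl)
    filter_upwards [hev] with z hz
    have hlin : HasDerivAt (fun z : ℂ => (p₀ + z • cst t).2 + y * Complex.I) (t.2 : ℂ) z := by
      have e : (fun z : ℂ => (p₀ + z • cst t).2 + y * Complex.I) =
          fun z : ℂ => (p₀.2 + y * Complex.I) + z * (t.2 : ℂ) := by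
        funext z
        simp [cst]
        ring
      rw [e]
      have := ((hasDerivAt_id z).mul_const (t.2 : ℂ)).const_add (p₀.2 + y * Complex.I)
      simpa using this
    have hcomp := (hlin.csin).clog hz
    refine hcomp.deriv.trans ?_
    have hne := Complex.slitPlane_ne_zero hz
    simp only [mul_zero, Finset.sum_const_zero, zero_add]
    field_simp

end fac

/-! ### The summand -/

theorem lgj : Pool.Agent.Y472.L.S_LGJ := by
  intro hPAR hA hB hD hS hQ hBF Lx σ c hSD n _ hn Θ θ c' hQD K hK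
  obtain ⟨-, -, -, -, hy, -, hb1, hb2, -⟩ := hPAR n hn
  obtain ⟨-, hσan, hσ, hSDe⟩ := hSD
  obtain ⟨-, hθan, -, hθ, hθsym, r₀, hr₀, -, hQDe⟩ := hQD
  have wl : ∀ r : Fin n, wst n (Sum.inl r) = 1 - bs n := fun r => rfl
  have wr : ∀ r : Fin n, wst n (Sum.inr r) = bs n := fun r => rfl
  have hδ0 : 0 < 1 - bs n - bs n := by linarith
  have hδ1 : 1 - bs n - bs n < 1 := by linarith
  have hδc : ((1 - bs n : ℝ) : ℂ) - ((bs n : ℝ) : ℂ) = ((1 - bs n - bs n : ℝ) : ℂ) := by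
    push_cast
    ring
  refine ⟨fun l w => (∑ r : Fin n, ((0 + (σ l (w.1 (Sum.inl r) - w.1 (Sum.inr r)) +
      σ l (w.1 (Sum.inl (r + 1)) - w.1 (Sum.inr r)))) +
      (θ l (w.1 (Sum.inl (r + 1))) (w.2 + yn n * Complex.I) -
        θ l (w.1 (Sum.inr r)) (w.2 + yn n * Complex.I)))) +
      ((if l = 0 then Complex.log (Complex.sin (w.2 + yn n * Complex.I)) else 0) + 0),
    ?_, ?_, ?_⟩
  · -- the coefficients
    intro E hE l hl
    obtain ⟨hks, -, hch, hE1, hE2, hE3, hs, hd1, hd2, -, -⟩ := hBF hPAR n hn E hE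
    have hp2 : (cst (wst n, (0 : ℝ))).2 = 0 := by simp [cst]
    have p1 : ∀ r : Fin n, (cst (wst n, (0 : ℝ))).1 (Sum.inl r) = ((1 - bs n : ℝ) : ℂ) :=
      fun r => rfl
    have p2 : ∀ r : Fin n, (cst (wst n, (0 : ℝ))).1 (Sum.inr r) = ((bs n : ℝ) : ℂ) :=
      fun r => rfl
    rcases Nat.eq_zero_or_pos l with h0 | hpos
    · subst h0
      simp only [if_true]
      have hsd : ∀ r r' : Fin n, Jt E (ks n) (cst (wst n, 0)) 0 1
          fun p => σ 0 (p.1 (Sum.inl r) - p.1 (Sum.inr r')) := by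
        intro r r'
        refine jt_sd0 hA hB hD hS hks _ _ ?_ ?_ ?_ ?_
        · rw [p1, p2]; exact hE3
        · rw [p1, p2]; exact hs
        · rw [p1, p2, hδc]; exact hσan 0 _ hδ0 hδ1
        · rw [p1, p2, hδc]
          filter_upwards [(hσ _ hδ0 hδ1).2] with w hw
          exact hw.1
      have hq1 : ∀ r : Fin n, Jt E (ks n) (cst (wst n, 0)) 0 1
          fun p => θ 0 (p.1 (Sum.inl r)) (p.2 + yn n * Complex.I) := by
        intro r
        refine jt_q0 hA hB hD hQ hks rfl hch hp2 _ ?_ ?_ ?_ ?_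
        · rw [p1]; exact hE1
        · rw [p1]; exact hd1
        · rw [p1]; exact hθan 0 _ (by linarith) (by linarith)
        · rw [p1]
          filter_upwards [hθ (1 - bs n) (by linarith) (by linarith)] with p hp
          exact hp.1
      have hq2 : ∀ r : Fin n, Jt E (ks n) (cst (wst n, 0)) 0 1
          fun p => θ 0 (p.1 (Sum.inr r)) (p.2 + yn n * Complex.I) := by
        intro r
        refine jt_q0 hA hB hD hQ hks rfl hch hp2 _ ?_ ?_ ?_ ?_
        · rw [p2]; exact hE2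
        · rw [p2]; exact hd2
        · rw [p2]; exact hθan 0 _ (by linarith) (by linarith)
        · rw [p2]
          filter_upwards [hθ (bs n) (by linarith) (by linarith)] with p hp
          exact hp.1
      have hls : Jt E (ks n) (cst (wst n, 0)) 0 1
          fun p => Complex.log (Complex.sin (p.2 + yn n * Complex.I)) := by
        refine jt_ls hA hB hD hQ hks rfl hch hp2 hy (Sum.inr 0) ?_ ?_
        · rw [p2]; exact hE2
        · rw [p2]; exact hd2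
      have hz := jt_zero (E := E) (κ := ks n) (p₀ := cst (wst n, (0 : ℝ))) hA hks 0 1
      exact jt_add hA hks (jt_sum hA hks _ _ fun r _ =>
        jt_add hA hks (jt_add hA hks hz (jt_add hA hks (hsd r r) (hsd (r + 1) r)))
          (jt_sub hA hks (hq1 (r + 1)) (hq2 r))) (jt_add hA hks hls hz)
    · obtain ⟨k, rfl⟩ : ∃ k, l = k + 1 := ⟨l - 1, by omega⟩
      simp only [Nat.succ_ne_zero, if_false]
      have hcast : (((k + 1 : ℕ)) : ℤ) = (k : ℤ) + 1 := by push_cast; ring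
      rw [hcast]
      have hsd : ∀ r r' : Fin n, Jt E (ks n) (cst (wst n, 0)) ((k : ℤ) + 1) 0
          fun p => σ (k + 1) (p.1 (Sum.inl r) - p.1 (Sum.inr r')) := by
        intro r r'
        refine jt_sd1 hA hB hS hks _ _ ?_ ?_ k (c k) ?_
        · rw [p1, p2]; exact hE3
        · rw [p1, p2]; exact hs
        · rw [p1, p2, hδc]
          filter_upwards [(hσ _ hδ0 hδ1).2] with w hw
          exact hw.2 k
      have hq1 : ∀ r : Fin n, Jt E (ks n) (cst (wst n, 0)) ((k : ℤ) + 1) 0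
          fun p => θ (k + 1) (p.1 (Sum.inl r)) (p.2 + yn n * Complex.I) := by
        intro r
        refine jt_q1 hA hB hQ hks rfl hch hp2 _ ?_ ?_ k (c' k) ?_
        · rw [p1]; exact hE1
        · rw [p1]; exact hd1
        · rw [p1]
          filter_upwards [hθ (1 - bs n) (by linarith) (by linarith)] with p hp
          exact hp.2 k
      have hq2 : ∀ r : Fin n, Jt E (ks n) (cst (wst n, 0)) ((k : ℤ) + 1) 0
          fun p => θ (k + 1) (p.1 (Sum.inr r)) (p.2 + yn n * Complex.I) := by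
        intro r
        refine jt_q1 hA hB hQ hks rfl hch hp2 _ ?_ ?_ k (c' k) ?_
        · rw [p2]; exact hE2
        · rw [p2]; exact hd2
        · rw [p2]
          filter_upwards [hθ (bs n) (by linarith) (by linarith)] with p hp
          exact hp.2 k
      have hz := jt_zero (E := E) (κ := ks n) (p₀ := cst (wst n, (0 : ℝ))) hA hks
        ((k : ℤ) + 1) 0
      exact jt_add hA hks (jt_sum hA hks _ _ fun r _ =>
        jt_add hA hks (jt_add hA hks hz (jt_add hA hks (hsd r r) (hsd (r + 1) r)))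
          (jt_sub hA hks (hq1 (r + 1)) (hq2 r))) (jt_add hA hks hz hz)
  · -- the value
    have p1 : ∀ r : Fin n, (cst (wst n, (0 : ℝ))).1 (Sum.inl r) = ((1 - bs n : ℝ) : ℂ) :=
      fun r => rfl
    have p2 : ∀ r : Fin n, (cst (wst n, (0 : ℝ))).1 (Sum.inr r) = ((bs n : ℝ) : ℂ) :=
      fun r => rfl
    have p3 : (cst (wst n, (0 : ℝ))).2 = 0 := by simp [cst]
    simp only [p1, p2, p3, zero_add, add_zero, if_true, hδc]
    rw [hθsym (bs n) (by linarith) (by linarith), sub_self, add_zero, Complex.exp_add,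
      Finset.sum_const, Finset.card_univ, Fintype.card_fin, nsmul_eq_mul, Complex.exp_nat_mul,
      Complex.exp_add, ← sq, (hσ _ hδ0 hδ1).1]
    have hsl := sin_axis hy
    rw [Complex.exp_log (Complex.slitPlane_ne_zero hsl), Complex.sin_mul_I]
    have hsin : Real.sin (π * (1 - bs n - bs n)) = Real.sin (2 * π * bs n) := by
      rw [show π * (1 - bs n - bs n) = π - 2 * π * bs n by ring, Real.sin_pi_sub]
    rw [hsin]
    unfold ks
    rw [one_div, inv_pow, Complex.ofReal_sinh]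
    ring
  · -- the expansion
    have hd : ∀ r r' : Fin n, 0 < wst n (Sum.inl r) - wst n (Sum.inr r') ∧
        wst n (Sum.inl r) - wst n (Sum.inr r') < 1 := by
      intro r r'
      rw [wl, wr]
      constructor <;> linarith
    have h1 : ∀ r ∈ (Finset.univ : Finset (Fin n)),
        LG (fun w : (Fin n ⊕ Fin n → ℂ) × ℂ =>
          ((Complex.I * π * ((w.1 (Sum.inl r) - w.1 (Sum.inl (r + 1))) * w.1 (Sum.inr r)) +
          (Lx (w.1 (Sum.inl r) - w.1 (Sum.inr r)) + Lx (w.1 (Sum.inl (r + 1)) - w.1 (Sum.inr r)))) +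
          (Θ (w.1 (Sum.inl (r + 1))) (w.2 + yn n * Complex.I) -
            Θ (w.1 (Sum.inr r)) (w.2 + yn n * Complex.I)))) (wst n) K
          (fun N k x => (vN N ^ (((k (Sum.inl r) : ℤ) - k (Sum.inl (r + 1))) * k (Sum.inr r)) *
            ((((√(N : ℝ) : ℝ) : ℂ) / (Sd N (k (Sum.inl r) - k (Sum.inr r)) : ℂ)) *
            (((√(N : ℝ) : ℝ) : ℂ) / (Sd N (k (Sum.inl (r + 1)) - k (Sum.inr r)) : ℂ)))) *
            Pq N (k (Sum.inr r)) (k (Sum.inl (r + 1))) (x + yn n * Complex.I))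
          (fun l w => (0 + (σ l (w.1 (Sum.inl r) - w.1 (Sum.inr r)) +
            σ l (w.1 (Sum.inl (r + 1)) - w.1 (Sum.inr r)))) +
            (θ l (w.1 (Sum.inl (r + 1))) (w.2 + yn n * Complex.I) -
              θ l (w.1 (Sum.inr r)) (w.2 + yn n * Complex.I))) := by
      intro r _
      refine lg_mul (lg_mul (lg_v _ _ _) (lg_mul ?_ ?_)) ?_
      · exact lg_sd hSDe _ _ (hd r r).1 (hd r r).2
      · exact lg_sd hSDe _ _ (hd (r + 1) r).1 (hd (r + 1) r).2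
      · refine lg_q hr₀ hQDe _ _ ?_ ?_
        · rw [wl, wr]; linarith
        · rw [wl]; linarith
    have h2 := lg_mul (lg_prod Finset.univ _ _ _ h1) (lg_mul (lg_sin hK hy) (lg_k hy))
    refine lg_congr h2 (fun w => rfl) ?_
    filter_upwards with N k x
    unfold TT co Qc
    have hN : (N : ℂ) ^ n = ∏ _r : Fin n, (((√(N : ℝ) : ℝ) : ℂ) * ((√(N : ℝ) : ℝ) : ℂ)) := by
      rw [Finset.prod_const, Finset.card_univ, Fintype.card_fin, ← Complex.ofReal_mul,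
        Real.mul_self_sqrt (Nat.cast_nonneg N), Complex.ofReal_natCast]
    rw [hN]
    have e : ∀ A B C D E : ℂ, A * (B * (C * D * E)) = (A * B * D) * (C * E) := by
      intro A B C D E; ring
    rw [e, ← Finset.prod_mul_distrib, ← Finset.prod_mul_distrib]
    congr 1
    refine Finset.prod_congr rfl fun r _ => ?_
    ring

end Pool.Agent.Y970.TA
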