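import Pool.Agent.Y472.L.Defs

/-!
# Project TA: the derivatives of the cotangent are in the class `Jt` (S_SRJ)
-/

set_option autoImplicit false

namespace Pool.Agent.Y970.TA

open Finset Filter Topology Pool.Agent.Y472.L Pool.Agent.W711.HT Pool.Agent.Y472.K
open scoped Real Nat

/-- `e^{2 π i w}` -/
noncomputable def Zw (w : ℂ) : ℂ := Complex.exp (pI * w)

lemma pI_ne : pI ≠ 0 := by
  unfold pI
  have hpi : (π : ℂ) ≠ 0 := by exact_mod_cast Real.pi_ne_zero
  simp [hpi]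

lemma Zw_ne (w : ℂ) : Zw w ≠ 0 := Complex.exp_ne_zero _

lemma Zw_sq (w : ℂ) : Zw w = Complex.exp (π * w * Complex.I) ^ 2 := by
  unfold Zw pI
  rw [← Complex.exp_nat_mul]
  congr 1
  push_cast
  ring

lemma sin_eq (w : ℂ) : Complex.sin (π * w) =
    ((Complex.exp (π * w * Complex.I))⁻¹ - Complex.exp (π * w * Complex.I)) * Complex.I / 2 := by
  rw [Complex.sin, ← Complex.exp_neg]
  congr 3
  congr 1
  ring

lemma cos_eq (w : ℂ) : Complex.cos (π * w) =
    (Complex.exp (π * w * Complex.I) + (Complex.exp (π * w * Complex.I))⁻¹) / 2 := by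
  rw [Complex.cos, ← Complex.exp_neg]
  congr 2
  congr 1
  ring

lemma Zw_sub_one (w : ℂ) : Zw w - 1 =
    2 * Complex.I * Complex.exp (π * w * Complex.I) * Complex.sin (π * w) := by
  rw [sin_eq, Zw_sq]
  have hu : Complex.exp (π * w * Complex.I) ≠ 0 := Complex.exp_ne_zero _
  set u := Complex.exp (π * w * Complex.I) with hu'
  field_simp
  rw [Complex.I_sq]
  ring

lemma Zw_sub_one_ne {w : ℂ} (h : Complex.sin (π * w) ≠ 0) : Zw w - 1 ≠ 0 := by
  rw [Zw_sub_one]
  have hu : Complex.exp (π * w * Complex.I) ≠ 0 := Complex.exp_ne_zero _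
  exact mul_ne_zero (mul_ne_zero (mul_ne_zero two_ne_zero Complex.I_ne_zero) hu) h

lemma cot_eq {w : ℂ} (h : Complex.sin (π * w) ≠ 0) :
    π * Complex.cos (π * w) / Complex.sin (π * w) =
      pI * ((1 / 2) * (Zw w + 1)) / (Zw w - 1) := by
  have h1 := Zw_sub_one_ne h
  rw [div_eq_div_iff h h1, Zw_sub_one, cos_eq, Zw_sq]
  have hu : Complex.exp (π * w * Complex.I) ≠ 0 := Complex.exp_ne_zero _
  set u := Complex.exp (π * w * Complex.I) with hu'
  unfold pI
  field_simp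

lemma hasDerivAt_Zw (w : ℂ) : HasDerivAt Zw (pI * Zw w) w := by
  unfold Zw
  have h := ((hasDerivAt_id w).const_mul pI).cexp
  simpa [mul_comm] using h

lemma isOpen_sin : IsOpen {w : ℂ | Complex.sin (π * w) ≠ 0} := by
  have hc : Continuous fun w : ℂ => Complex.sin (π * w) := by fun_prop
  exact isOpen_ne_fun hc continuous_const

/-- the polynomials of the derivatives of the cotangent -/
lemma ct1_formula (k : ℕ) : ∃ P : Polynomial ℚ, ∀ w : ℂ, Complex.sin (π * w) ≠ 0 →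
    ct1 k w = pI ^ (k + 1) * (Polynomial.aeval (Zw w) P * ((Zw w - 1) ^ (k + 1))⁻¹) := by
  induction k with
  | zero =>
    refine ⟨Polynomial.C (1 / 2 : ℚ) * (Polynomial.X + 1), fun w hw => ?_⟩
    unfold ct1
    rw [iteratedDeriv_zero, cot_eq hw]
    have h2 : (algebraMap ℚ ℂ) (1 / 2 : ℚ) = 1 / 2 := by simp
    simp only [map_mul, Polynomial.aeval_C, map_add, Polynomial.aeval_X, map_one, h2, zero_add,
      pow_one]
    ring
  | succ k ih =>
    obtain ⟨P, hP⟩ := ih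
    refine ⟨Polynomial.X * (Polynomial.derivative P * (Polynomial.X - 1) -
      Polynomial.C ((k : ℚ) + 1) * P), fun w hw => ?_⟩
    have hev : (fun v : ℂ => iteratedDeriv k
        (fun v : ℂ => π * Complex.cos (π * v) / Complex.sin (π * v)) v) =ᶠ[𝓝 w]
        fun v => pI ^ (k + 1) * (Polynomial.aeval (Zw v) P * ((Zw v - 1) ^ (k + 1))⁻¹) := by
      filter_upwards [isOpen_sin.mem_nhds hw] with v hv
      exact hP v hv
    have h1 : ct1 (k + 1) w = deriv (fun v => pI ^ (k + 1) *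
        (Polynomial.aeval (Zw v) P * ((Zw v - 1) ^ (k + 1))⁻¹)) w := by
      unfold ct1
      rw [iteratedDeriv_succ]
      exact hev.deriv_eq
    have hz := hasDerivAt_Zw w
    have hz1 := Zw_sub_one_ne hw
    have hA : HasDerivAt (fun v => Polynomial.aeval (Zw v) P)
        (Polynomial.aeval (Zw w) (Polynomial.derivative P) * (pI * Zw w)) w :=
      (Polynomial.hasDerivAt_aeval P (Zw w)).comp w hz
    have hB : HasDerivAt (fun v => (Zw v - 1) ^ (k + 1))
        (((k + 1 : ℕ) : ℂ) * (Zw w - 1) ^ k * (pI * Zw w)) w := by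
      have := (hz.sub_const 1).fun_pow (k + 1)
      simpa using this
    have hC := hB.fun_inv (pow_ne_zero (k + 1) hz1)
    have hD := (hA.fun_mul hC).const_mul (pI ^ (k + 1))
    rw [h1]
    refine hD.deriv.trans ?_
    have h2 : (algebraMap ℚ ℂ) ((k : ℚ) + 1) = (k : ℂ) + 1 := by simp
    simp only [map_mul, Polynomial.aeval_C, map_sub, Polynomial.aeval_X, map_one, h2]
    set Q := Polynomial.aeval (Zw w) P
    set Q' := Polynomial.aeval (Zw w) (Polynomial.derivative P)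
    set z := Zw w
    push_cast
    have e1 : (z - 1) ^ (k + 1) ≠ 0 := pow_ne_zero _ hz1
    have e2 : (z - 1) ^ k ≠ 0 := pow_ne_zero _ hz1
    field_simp
    ring

section cls

variable {ι : Type} [Fintype ι] {E : Subfield ℂ} {κ : ℂ} {p₀ : (ι → ℂ) × ℂ}

lemma jt_pow (hA : S_JTA) (hκ : κ ≠ 0) {f : (ι → ℂ) × ℂ → ℂ} (hf : Jt E κ p₀ 0 0 f) (n : ℕ) :
    Jt E κ p₀ 0 0 fun p => f p ^ n := by
  obtain ⟨h1, h2, h3, h4, h5, h6, h7, h8, h9⟩ := hA ι E κ p₀ hκ
  induction n with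
  | zero => simpa using h1 1 E.one_mem
  | succ n ih =>
    have := h5 0 0 _ _ ih hf
    simpa [pow_succ] using this

lemma jt_poly (hA : S_JTA) (hκ : κ ≠ 0) {f : (ι → ℂ) × ℂ → ℂ} (hf : Jt E κ p₀ 0 0 f)
    (P : Polynomial ℚ) : Jt E κ p₀ 0 0 fun p => Polynomial.aeval (f p) P := by
  obtain ⟨h1, h2, h3, h4, h5, h6, h7, h8, h9⟩ := hA ι E κ p₀ hκ
  induction P using Polynomial.induction_on' with
  | add p q hp hq =>
    have := h3 0 0 _ _ hp hq
    simpa using this
  | monomial n r =>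
    have hr : ((r : ℚ) : ℂ) ∈ E := SubfieldClass.ratCast_mem E r
    have := h4 0 0 _ _ hr (jt_pow hA hκ hf n)
    simpa [Polynomial.aeval_monomial] using this

end cls

theorem srj : Pool.Agent.Y472.L.S_SRJ := by
  intro hA hB ι _ E κ p₀ a b hκ hE hs k
  classical
  have hA' := hA ι E κ p₀ hκ
  obtain ⟨h1, h2, h3, h4, h5, h6, h7, h8, h9⟩ := hA'
  have hsum : ∀ p : (ι → ℂ) × ℂ,
      ∑ x, (((Pi.single a (1 : ℤ) - Pi.single b (1 : ℤ) : ι → ℤ) x : ℤ) : ℂ) * p.1 x =
        p.1 a - p.1 b := by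
    intro p
    simp only [Pi.sub_apply, Int.cast_sub, sub_mul, Finset.sum_sub_distrib]
    congr 1
    · rw [Finset.sum_eq_single a]
      · simp
      · intro x _ hx
        simp [Pi.single_eq_of_ne hx]
      · intro h
        exact absurd (Finset.mem_univ a) h
    · rw [Finset.sum_eq_single b]
      · simp
      · intro x _ hx
        simp [Pi.single_eq_of_ne hx]
      · intro h
        exact absurd (Finset.mem_univ b) h
  have hZ : Jt E κ p₀ 0 0 fun p => Zw (p.1 a - p.1 b) := by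
    have := (hB ι E κ p₀ hκ).1 (Pi.single a (1 : ℤ) - Pi.single b (1 : ℤ)) (by
      rw [hsum]; exact hE)
    simp only [hsum] at this
    exact this
  have hZ1 : Jt E κ p₀ 0 0 fun p => Zw (p.1 a - p.1 b) - 1 := by
    have h := h3 0 0 _ _ hZ (h1 (-1) (E.neg_mem E.one_mem))
    have e : (fun p : (ι → ℂ) × ℂ => Zw (p.1 a - p.1 b) - 1) =
        fun p => Zw (p.1 a - p.1 b) + (fun _ => (-1 : ℂ)) p := by
      funext p
      simp [sub_eq_add_neg]
    rw [e]
    exact h
  obtain ⟨P, hP⟩ := ct1_formula k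
  have hne : (Zw (p₀.1 a - p₀.1 b) - 1) ^ (k + 1) ≠ 0 := pow_ne_zero _ (Zw_sub_one_ne hs)
  have hI := h6 _ (jt_pow hA hκ hZ1 (k + 1)) hne
  have hM := h5 0 0 _ _ (jt_poly hA hκ hZ P) hI
  have hF := h7 _ ((k : ℤ) + 1) 0 _ hM
  have hF' : Jt E κ p₀ ((k : ℤ) + 1) 0 fun p => pI ^ ((k : ℤ) + 1) *
      (Polynomial.aeval (Zw (p.1 a - p.1 b)) P * ((Zw (p.1 a - p.1 b) - 1) ^ (k + 1))⁻¹) := by
    simpa using hF
  refine h9 _ _ _ _ ?_ hF'
  have hc : Continuous fun p : (ι → ℂ) × ℂ => p.1 a - p.1 b := by fun_prop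
  have hev : ∀ᶠ p in 𝓝 p₀, Complex.sin (π * (p.1 a - p.1 b)) ≠ 0 :=
    hc.continuousAt.eventually (isOpen_sin.mem_nhds hs)
  filter_upwards [hev] with p hp
  rw [hP _ hp]
  congr 1

end Pool.Agent.Y970.TA
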